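import Mathlib

set_option autoImplicit false

namespace Pool.Agent.H.MP_49092c_al

open MvPolynomial

/-- The degree `i` piece of a quotient of a polynomial ring. -/
noncomputable def piece {σ K : Type} [Field K] (J : Ideal (MvPolynomial σ K)) (i : ℕ) :
    Submodule K (MvPolynomial σ K ⧸ J) :=
  (homogeneousSubmodule σ K i).map (Ideal.Quotient.mkₐ K J).toLinearMap

/-- The ideal `I` of the quotient has a `d`-linear free resolution of finite type. -/
def LinRes {σ K : Type} [Field K] (J : Ideal (MvPolynomial σ K)) (d : ℕ)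
    (I : Ideal (MvPolynomial σ K ⧸ J)) : Prop :=
  ∃ (b : ℕ → ℕ) (y : Fin (b 0) → MvPolynomial σ K ⧸ J)
    (D : ∀ i, Matrix (Fin (b (i + 1))) (Fin (b i)) (MvPolynomial σ K ⧸ J)),
    (∀ j, y j ∈ piece J d) ∧ (∀ i j k, D i j k ∈ piece J 1) ∧ Ideal.span (Set.range y) = I ∧
    Function.Exact (D 0).vecMulLinear (Fintype.linearCombination (MvPolynomial σ K ⧸ J) y) ∧
    ∀ i, Function.Exact (D (i + 1)).vecMulLinear (D i).vecMulLinear

/-- Every ideal generated by linear forms has a linear resolution. -/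
def UK {σ K : Type} [Field K] (J : Ideal (MvPolynomial σ K)) : Prop :=
  ∀ T : Set (MvPolynomial σ K ⧸ J), T ⊆ piece J 1 → LinRes J 1 (Ideal.span T)

end Pool.Agent.H.MP_49092c_al
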