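import Mathlib
import Pool.Agent.H.MP_49092c_al.Defs

set_option autoImplicit false

namespace Pool.Agent.H.MP_49092c_al

open MvPolynomial Submodule

attribute [local instance] MvPolynomial.gradedAlgebra

variable {σ : Type} [Fintype σ]

abbrev S (σ : Type) := MvPolynomial σ ℚ

noncomputable def hc (n : ℕ) : S σ →ₗ[ℚ] S σ := GradedAlgebra.proj (homogeneousSubmodule σ ℚ) n

omit [Fintype σ] in
lemma hc_hom (n : ℕ) (p : S σ) : (hc n p).IsHomogeneous n :=
  (DirectSum.decompose (homogeneousSubmodule σ ℚ) p n).2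

omit [Fintype σ] in
lemma hc_mul (n : ℕ) (q : S σ) {r : S σ} {s : ℕ} (h : r.IsHomogeneous s) :
    hc n (q * r) = if s ≤ n then hc (n - s) q * r else 0 :=
  DirectSum.coe_decompose_mul_of_right_mem (homogeneousSubmodule σ ℚ) n h

omit [Fintype σ] in
lemma hc_same {n : ℕ} {p : S σ} (h : p.IsHomogeneous n) : hc n p = p :=
  DirectSum.decompose_of_mem_same (homogeneousSubmodule σ ℚ) h

omit [Fintype σ] in
lemma hc_span (n k : ℕ) {T : Set (S σ)} (hT : ∀ t ∈ T, t.IsHomogeneous k) {p : S σ}
    (h : p ∈ Ideal.span T) : hc n p ∈ Ideal.span T :=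
  Ideal.homogeneous_span (homogeneousSubmodule σ ℚ) _ (fun x hx => ⟨k, hT x hx⟩) n h

lemma lin_eq {h : S σ} (hh : h.IsHomogeneous 1) : ∃ c : σ → ℚ, ∑ i, c i • X i = h := by
  have : h ∈ span ℚ (Set.range (X : σ → S σ)) :=
    (homogeneousSubmodule_one_eq_span_X (R := ℚ) (σ := σ)).le hh
  exact (mem_span_range_iff_exists_fun ℚ).1 this

omit [Fintype σ] in
lemma sub_aeval (m : σ → S σ) (J : Ideal (S σ)) (h : ∀ i, X i - m i ∈ J) (f : S σ) :
    f - aeval m f ∈ J := by
  induction f using MvPolynomial.induction_on with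
  | C c => simp
  | add p q hp hq =>
    have := add_mem hp hq
    rw [map_add]; convert this using 1; ring
  | mul_X p i hp =>
    have := add_mem (J.mul_mem_right (X i) hp) (J.mul_mem_left (aeval m p) (h i))
    rw [map_mul, aeval_X]; convert this using 1; ring

lemma exists_rho (W : Submodule ℚ (S σ)) (hW : ∀ w ∈ W, w.IsHomogeneous 1) :
    ∃ m : σ → S σ, (∀ i, (m i).IsHomogeneous 1) ∧ (∀ f, aeval m f = 0 ↔ f ∈ Ideal.span (W : Set (S σ))) ∧
      (∀ f, f - aeval m f ∈ Ideal.span (W : Set (S σ))) ∧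
      ∀ h : S σ, h.IsHomogeneous 1 → aeval m h = 0 → h ∈ W := by
  obtain ⟨W', hc⟩ := W.exists_isCompl
  let π : S σ →ₗ[ℚ] S σ := W.subtype ∘ₗ W.linearProjOfIsCompl W' hc
  have π1 : ∀ f, π f ∈ W := fun f => (W.linearProjOfIsCompl W' hc f).2
  have π2 : ∀ w ∈ W, π w = w := fun w hw =>
    congrArg Subtype.val (linearProjOfIsCompl_apply_left hc ⟨w, hw⟩)
  have key : ∀ h : S σ, h.IsHomogeneous 1 → aeval (fun i => X i - π (X i)) h = h - π h := by
    intro h hh
    obtain ⟨c, rfl⟩ := lin_eq hh
    simp only [map_sum, map_smul, aeval_X, smul_sub, Finset.sum_sub_distrib]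
  have sub := sub_aeval (fun i => X i - π (X i)) (Ideal.span (W : Set (S σ)))
    (fun i => by simpa using Ideal.subset_span (π1 _))
  refine ⟨fun i => X i - π (X i), fun i => (isHomogeneous_X _ _).sub (hW _ (π1 _)), fun f => ⟨fun h => ?_,
    fun h => ?_⟩, sub, fun h hh e => ?_⟩
  · have := sub f
    rwa [h, sub_zero] at this
  · refine Submodule.span_induction (p := fun f _ => aeval (fun i => X i - π (X i)) f = 0) ?_ ?_ ?_ ?_ h
    · intro w hw; rw [key w (hW w hw), π2 w hw, sub_self]
    · simp
    · intro a b _ _ ha hb; rw [map_add, ha, hb, add_zero]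
    · intro c a _ ha; rw [smul_eq_mul, map_mul, ha, mul_zero]
  · rw [key h hh, sub_eq_zero] at e
    rw [e]; exact π1 h

lemma scale (κ : σ → ℚ) (d : S σ) {q : S σ} (hq : q.IsHomogeneous 2) :
    aeval (fun i => κ i • d) q = eval κ q • d ^ 2 := by
  have h1 : ∀ h : S σ, h.IsHomogeneous 1 → aeval (fun i => κ i • d) h = eval κ h • d := by
    intro h hh
    obtain ⟨c, rfl⟩ := lin_eq hh
    simp [Finset.sum_smul, smul_smul]
  have h2 : q ∈ homogeneousSubmodule σ ℚ 1 * homogeneousSubmodule σ ℚ 1 := by
    rw [← sq, homogeneousSubmodule_one_pow]; exact hq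
  refine Submodule.mul_induction_on h2 (fun a ha b hb => ?_) (fun a b ha hb => ?_)
  · rw [map_mul, h1 a ha, h1 b hb, map_mul, smul_mul_smul_comm, sq]
  · rw [map_add, ha, hb, map_add, add_smul]

lemma relprime {q1 q2 : S σ} (h1 : q1.IsHomogeneous 2) (h2 : q2.IsHomogeneous 2)
    (hz : ∀ a : σ → ℚ, eval a q1 = 0 → eval a q2 = 0 → a = 0) (m : σ → S σ)
    (hm : ∀ i, (m i).IsHomogeneous 1)
    (ind : ∀ c1 c2 : ℚ, c1 • aeval m q1 + c2 • aeval m q2 = 0 → c1 = 0 ∧ c2 = 0) :
    IsRelPrime (aeval m q1) (aeval m q2) := by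
  classical
  rintro d ⟨e1, he1⟩ ⟨e2, he2⟩
  have n1 : aeval m q1 ≠ 0 := fun e => one_ne_zero (ind 1 0 (by rw [e]; simp)).1
  have n2 : aeval m q2 ≠ 0 := fun e => one_ne_zero (ind 0 1 (by rw [e]; simp)).2
  have t1 := (h1.aeval m hm).totalDegree n1
  have t2 := (h2.aeval m hm).totalDegree n2
  rw [he1] at n1 t1
  rw [he2] at n2 t2
  have d0 := left_ne_zero_of_mul n1
  rw [totalDegree_mul_of_isDomain d0 (right_ne_zero_of_mul n1)] at t1
  rw [totalDegree_mul_of_isDomain d0 (right_ne_zero_of_mul n2)] at t2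
  have unit : d.totalDegree = 0 → IsUnit d := by
    intro h
    rw [totalDegree_eq_zero_iff_eq_C.1 h] at d0 ⊢
    exact (IsUnit.mk0 _ (fun e => d0 (by rw [e, C_0]))).map C
  obtain h | h | h : d.totalDegree = 0 ∨ d.totalDegree = 1 ∨ d.totalDegree = 2 := by omega
  · exact unit h
  · have hd := sum_homogeneousComponent d
    rw [h, Finset.sum_range_succ, Finset.sum_range_one, homogeneousComponent_zero] at hd
    obtain ⟨l, hl⟩ := lin_eq (homogeneousComponent_isHomogeneous 1 d)
    rw [← hl] at hd
    by_cases l0 : ∀ j, l j = 0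
    · apply unit
      rw [← hd]; simp [l0]
    · push Not at l0
      obtain ⟨j, hj⟩ := l0
      exfalso
      let t : σ → S σ := fun i => X i - if i = j then (l j)⁻¹ • d else 0
      have td : aeval t d = 0 := by
        conv_lhs => rw [← hd]
        simp only [map_add, map_sum, map_smul, aeval_X, aeval_C, t, smul_sub, Finset.sum_sub_distrib,
          smul_ite, smul_zero, Finset.sum_ite_eq', Finset.mem_univ, if_true, smul_smul,
          mul_inv_cancel₀ hj, one_smul, algebraMap_eq]
        rw [← add_sub_assoc, hd, sub_self]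
      have sub := sub_aeval t (Ideal.span {d}) (fun i => by
        simp only [t, sub_sub_cancel]
        split_ifs
        · exact ((Ideal.span {d}).restrictScalars ℚ).smul_mem _ (Ideal.subset_span rfl)
        · exact zero_mem _)
      have ev : ∀ (a : σ → ℚ) (q : S σ), eval (fun i => eval a (aeval t (m i))) q =
          eval a (aeval t (aeval m q)) := by
        intro a q
        induction q using MvPolynomial.induction_on with
        | C c => simp
        | add p q hp hq => simp only [map_add, hp, hq]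
        | mul_X p i hp => simp only [map_mul, hp, eval_X, aeval_X]
      have z : ∀ i, aeval t (m i) = 0 := by
        intro i
        apply MvPolynomial.funext
        intro a
        have := hz _ (by rw [ev a q1, he1, map_mul, td]; simp) (by rw [ev a q2, he2, map_mul, td]; simp)
        simpa using congrFun this i
      have k : ∀ i, ∃ κ : ℚ, m i = κ • d := by
        intro i
        have := sub (m i)
        rw [z, sub_zero] at this
        obtain ⟨k, hk⟩ := Ideal.mem_span_singleton'.1 this
        by_cases k0 : k = 0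
        · exact ⟨0, by rw [← hk, k0]; simp⟩
        · have t3 := (hm i).totalDegree (hk ▸ mul_ne_zero k0 d0)
          rw [← hk, totalDegree_mul_of_isDomain k0 d0] at t3
          refine ⟨coeff 0 k, ?_⟩
          rw [← hk, smul_eq_C_mul, ← totalDegree_eq_zero_iff_eq_C.1 (by omega)]
      choose κ hκ using k
      obtain rfl : m = fun i => κ i • d := funext hκ
      rw [← he1] at n1
      rw [scale κ d h1] at n1
      have := (ind (eval κ q2) (-eval κ q1) (by
        rw [scale κ d h1, scale κ d h2, smul_smul, smul_smul, ← add_smul]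
        ring_nf; simp)).2
      apply n1
      rw [neg_eq_zero.1 this, zero_smul]
  · exfalso
    have c1 := totalDegree_eq_zero_iff_eq_C.1 (show e1.totalDegree = 0 by omega)
    have c2 := totalDegree_eq_zero_iff_eq_C.1 (show e2.totalDegree = 0 by omega)
    have := (ind (coeff 0 e2) (-coeff 0 e1) (by
      rw [he1, he2, neg_smul, smul_eq_C_mul, smul_eq_C_mul, ← c1, ← c2]; ring)).1
    apply n2
    rw [c2, this]; simp

end Pool.Agent.H.MP_49092c_al
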