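import Mathlib
import Pool.Agent.H.MP_49092c_al.A
import Pool.Agent.H.MP_0b1547_co.K

set_option autoImplicit false

namespace Pool.Agent.H.MP_49092c_al

open MvPolynomial Submodule
open Pool.Agent.H.MP_0b1547_co (LQ syz)

variable {σ : Type} [Fintype σ]

/-- The conclusion about colon ideals. -/
def Col (V : Submodule ℚ (S σ)) (l : S σ) (J : Ideal (S σ)) : Prop :=
  ∃ T : Set (S σ), (∀ t ∈ T, t.IsHomogeneous 1) ∧
    ∀ f, f * l ∈ Ideal.span (V : Set (S σ)) ⊔ J ↔ f ∈ Ideal.span T ⊔ J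

lemma colon {q1 q2 : S σ} (h1 : q1.IsHomogeneous 2) (h2 : q2.IsHomogeneous 2)
    (hz : ∀ a : σ → ℚ, eval a q1 = 0 → eval a q2 = 0 → a = 0)
    (V : Submodule ℚ (S σ)) (hV : ∀ v ∈ V, v.IsHomogeneous 1) (l : S σ) (hl : l.IsHomogeneous 1)
    (hlV : l ∉ V) : Col V l (Ideal.span {q1, q2}) := by
  obtain ⟨m0, _, a1, _, a3⟩ := exists_rho V hV
  obtain ⟨m, b0, b1, b2, _⟩ := exists_rho (V ⊔ span ℚ {l}) (fun w hw => by
    obtain ⟨v, hv, u, hu, rfl⟩ := mem_sup.1 hw
    obtain ⟨c, rfl⟩ := mem_span_singleton.1 hu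
    exact (homogeneousSubmodule σ ℚ 1).add_mem (hV v hv) ((homogeneousSubmodule σ ℚ 1).smul_mem c hl))
  set N := Ideal.span (V : Set (S σ)) with hN
  have dom : ∀ f, f * l ∈ N → f ∈ N := by
    intro f hf
    have := (a1 _).2 hf
    rw [map_mul] at this
    exact (a1 _).1 ((mul_eq_zero.1 this).resolve_right fun e => hlV (a3 l hl e))
  have dec : ∀ f ∈ Ideal.span ((V ⊔ span ℚ {l} : Submodule ℚ (S σ)) : Set (S σ)),
      ∃ a, f - a * l ∈ N := by
    intro f hf
    refine Submodule.span_induction (p := fun f _ => ∃ a, f - a * l ∈ N) ?_ ?_ ?_ ?_ hf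
    · intro w hw
      obtain ⟨v, hv, u, hu, rfl⟩ := mem_sup.1 hw
      obtain ⟨c, rfl⟩ := mem_span_singleton.1 hu
      exact ⟨C c, by rw [smul_eq_C_mul, add_sub_cancel_right]; exact Ideal.subset_span hv⟩
    · exact ⟨0, by simp⟩
    · rintro x y _ _ ⟨a, ha⟩ ⟨b, hb⟩
      exact ⟨a + b, by convert add_mem ha hb using 1; ring⟩
    · rintro c x _ ⟨a, ha⟩
      exact ⟨c * a, by convert N.mul_mem_left c ha using 1; rw [smul_eq_mul]; ring⟩
  have ml : aeval m l = 0 := (b1 _).2 (Ideal.subset_span (mem_sup_right (mem_span_singleton_self l)))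
  have mN : ∀ f ∈ N, aeval m f = 0 := fun f hf =>
    (b1 _).2 (Ideal.span_mono (fun x hx => mem_sup_left hx) hf)
  have dec2 : ∀ q : S σ, q.IsHomogeneous 2 → aeval m q = 0 →
      ∃ a : S σ, a.IsHomogeneous 1 ∧ q - a * l ∈ N := by
    intro q hq e
    obtain ⟨a, ha⟩ := dec q ((b1 _).1 e)
    have := hc_span 2 1 hV ha
    rw [map_sub, hc_same hq, hc_mul 2 a hl, if_pos (by norm_num)] at this
    exact ⟨_, hc_hom 1 a, this⟩
  have unpack : ∀ (p1 p2 f : S σ), f * l ∈ N ⊔ Ideal.span {p1, p2} →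
      ∃ g1 g2, f * l - g1 * p1 - g2 * p2 ∈ N := by
    intro p1 p2 f hf
    obtain ⟨v, hv, u, hu, e⟩ := mem_sup.1 hf
    obtain ⟨g1, g2, rfl⟩ := Ideal.mem_span_pair.1 hu
    exact ⟨g1, g2, by rw [← e]; convert hv using 1; ring⟩
  have back : ∀ (J : Ideal (S σ)) (T : Set (S σ)), (∀ t ∈ T, t * l ∈ N ⊔ J) →
      ∀ f ∈ Ideal.span T ⊔ J, f * l ∈ N ⊔ J := by
    intro J T hT f hf
    obtain ⟨v, hv, u, hu, rfl⟩ := mem_sup.1 hf
    rw [add_mul]
    refine add_mem ?_ (Ideal.mem_sup_right (J.mul_mem_right _ hu))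
    refine Submodule.span_induction (p := fun v _ => v * l ∈ N ⊔ J) hT (by simp) ?_ ?_ hv
    · intro a b _ _ ha hb; rw [add_mul]; exact add_mem ha hb
    · intro c a _ ha; rw [smul_eq_mul, mul_assoc]; exact Ideal.mul_mem_left _ _ ha
  have bV : ∀ (J : Ideal (S σ)), ∀ t ∈ (V : Set (S σ)), t * l ∈ N ⊔ J := fun J t ht =>
    Ideal.mem_sup_left (N.mul_mem_right _ (Ideal.subset_span ht))
  have caseB : ∀ (p1 p2 : S σ) (c : ℚ), p1.IsHomogeneous 2 → p2.IsHomogeneous 2 → aeval m p1 ≠ 0 →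
      aeval m p2 = c • aeval m p1 → Col V l (Ideal.span {p1, p2}) := by
    intro p1 p2 c k1 k2 n1 e
    obtain ⟨a, ha, hq⟩ := dec2 (p2 - C c * p1) (k2.sub (k1.C_mul c))
      (by rw [← smul_eq_C_mul, map_sub, map_smul, e, sub_self])
    have s1 : p1 ∈ Ideal.span {p1, p2} := Ideal.subset_span (by simp)
    have s2 : p2 ∈ Ideal.span {p1, p2} := Ideal.subset_span (by simp)
    refine ⟨insert a V, ?_, fun f => ⟨fun hf => ?_, back _ _ ?_ f⟩⟩
    · rintro t (rfl | ht)
      · exact ha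
      · exact hV t ht
    · obtain ⟨g1, g2, hg⟩ := unpack _ _ f hf
      have r1 : (f - g2 * a) * l - (g1 + g2 * C c) * p1 ∈ N := by
        convert add_mem hg (N.mul_mem_left g2 hq) using 1; ring
      have r2 := mN _ r1
      rw [map_sub, map_mul, map_mul, ml, mul_zero, zero_sub, neg_eq_zero] at r2
      obtain ⟨h, hh⟩ := dec _ ((b1 _).1 ((mul_eq_zero.1 r2).resolve_right n1))
      have r3 := dom (f - g2 * a - h * p1) (by
        convert add_mem r1 (N.mul_mem_right p1 hh) using 1; ring)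
      have : f = (f - g2 * a - h * p1) + g2 * a + h * p1 := by ring
      rw [this]
      refine add_mem (Ideal.mem_sup_left (add_mem (Ideal.span_mono (Set.subset_insert _ _) r3)
        (Ideal.mul_mem_left _ _ (Ideal.subset_span (Set.mem_insert _ _)))))
        (Ideal.mem_sup_right (Ideal.mul_mem_left _ _ s1))
    · rintro t (rfl | ht)
      · have : t * l = -(p2 - C c * p1 - t * l) + (p2 - C c * p1) := by ring
        rw [this]
        exact add_mem (Ideal.mem_sup_left (neg_mem hq))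
          (Ideal.mem_sup_right (sub_mem s2 (Ideal.mul_mem_left _ _ s1)))
      · exact bV _ t ht
  have s1 : q1 ∈ Ideal.span {q1, q2} := Ideal.subset_span (by simp)
  have s2 : q2 ∈ Ideal.span {q1, q2} := Ideal.subset_span (by simp)
  by_cases ind : ∀ c1 c2 : ℚ, c1 • aeval m q1 + c2 • aeval m q2 = 0 → c1 = 0 ∧ c2 = 0
  · have rp := relprime h1 h2 hz m b0 ind
    have n1 : aeval m q1 ≠ 0 := fun e => one_ne_zero (ind 1 0 (by rw [e]; simp)).1
    refine ⟨V, hV, fun f => ⟨fun hf => ?_, back _ _ (bV _) f⟩⟩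
    obtain ⟨g1, g2, hg⟩ := unpack _ _ f hf
    have r2 := mN _ hg
    simp only [map_sub, map_mul, ml, mul_zero] at r2
    obtain ⟨h, hh⟩ : aeval m q1 ∣ aeval m g2 :=
      rp.dvd_of_dvd_mul_right ⟨-aeval m g1, by linear_combination -r2⟩
    have e1 : aeval m g1 = -(h * aeval m q2) := by
      apply mul_left_cancel₀ n1
      rw [hh] at r2
      linear_combination -r2
    set W := Ideal.span ((V ⊔ span ℚ {l} : Submodule ℚ (S σ)) : Set (S σ))
    obtain ⟨u1, hu1⟩ := dec (g1 + h * q2) (by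
      convert add_mem (b2 g1) (W.mul_mem_left h (b2 q2)) using 1; rw [e1]; ring)
    obtain ⟨u2, hu2⟩ := dec (g2 - h * q1) (by
      convert sub_mem (b2 g2) (W.mul_mem_left h (b2 q1)) using 1; rw [hh]; ring)
    have r3 := dom (f - u1 * q1 - u2 * q2) (by
      convert add_mem (add_mem hg (N.mul_mem_right q1 hu1)) (N.mul_mem_right q2 hu2) using 1; ring)
    have : f = (f - u1 * q1 - u2 * q2) + (u1 * q1 + u2 * q2) := by ring
    rw [this]
    exact add_mem (Ideal.mem_sup_left r3)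
      (Ideal.mem_sup_right (add_mem (Ideal.mul_mem_left _ _ s1) (Ideal.mul_mem_left _ _ s2)))
  · push Not at ind
    obtain ⟨c1, c2, e, hc12⟩ := ind
    by_cases n1 : aeval m q1 = 0
    · by_cases n2 : aeval m q2 = 0
      · obtain ⟨u1, k1, hu1⟩ := dec2 q1 h1 n1
        obtain ⟨u2, k2, hu2⟩ := dec2 q2 h2 n2
        refine ⟨insert u1 (insert u2 V), ?_, fun f => ⟨fun hf => ?_, back _ _ ?_ f⟩⟩
        · rintro t (rfl | rfl | ht)
          · exact k1
          · exact k2
          · exact hV t ht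
        · obtain ⟨g1, g2, hg⟩ := unpack _ _ f hf
          have r3 := dom (f - g1 * u1 - g2 * u2) (by
            convert add_mem (add_mem hg (N.mul_mem_left g1 hu1)) (N.mul_mem_left g2 hu2) using 1; ring)
          have : f = (f - g1 * u1 - g2 * u2) + g1 * u1 + g2 * u2 := by ring
          rw [this]
          refine Ideal.mem_sup_left (add_mem (add_mem (Ideal.span_mono
            ((Set.subset_insert _ _).trans (Set.subset_insert _ _)) r3)
            (Ideal.mul_mem_left _ _ (Ideal.subset_span (by simp))))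
            (Ideal.mul_mem_left _ _ (Ideal.subset_span (by simp))))
        · rintro t (rfl | rfl | ht)
          · have : t * l = -(q1 - t * l) + q1 := by ring
            rw [this]
            exact add_mem (Ideal.mem_sup_left (neg_mem hu1)) (Ideal.mem_sup_right s1)
          · have : t * l = -(q2 - t * l) + q2 := by ring
            rw [this]
            exact add_mem (Ideal.mem_sup_left (neg_mem hu2)) (Ideal.mem_sup_right s2)
          · exact bV _ t ht
      · rw [Set.pair_comm]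
        exact caseB q2 q1 0 h2 h1 n2 (by rw [n1, zero_smul])
    · have c2n : c2 ≠ 0 := by
        rintro rfl
        rw [zero_smul, add_zero] at e
        exact hc12 ((smul_eq_zero.1 e).resolve_right n1) rfl
      refine caseB q1 q2 (-c1 / c2) h1 h2 n1 ?_
      apply smul_right_injective _ c2n
      simp only [smul_smul, mul_div_cancel₀ _ c2n, neg_smul]
      exact eq_neg_of_add_eq_zero_right e

theorem linres_of {A : Type} [CommRing A] (F : Set (Ideal A)) (L : Set A) (L0 : (0 : A) ∈ L)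
    (Ln : ∀ a ∈ L, -a ∈ L)
    (hF : ∀ I ∈ F, ∃ (r : ℕ) (y : Fin r → A), (∀ j, y j ∈ L) ∧ LQ F r y ∧ span A (Set.range y) = I)
    (π : A → A) (hπ : ∀ a, π a ∈ L)
    (hG : ∀ (k : ℕ) (v : Fin k → A) (u x : A) (a : Fin k → A), x ∈ L → u ∈ L → (∀ l, v l ∈ L) →
      x * u = ∑ l, a l * v l → x * u = ∑ l, π (a l) * v l) (I : Ideal A) (hm : I ∈ F) :
    ∃ (b : ℕ → ℕ) (y : Fin (b 0) → A) (D : ∀ i, Matrix (Fin (b (i + 1))) (Fin (b i)) A),
      (∀ j, y j ∈ L) ∧ (∀ i j k, D i j k ∈ L) ∧ Ideal.span (Set.range y) = I ∧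
      Function.Exact (D 0).vecMulLinear (Fintype.linearCombination A y) ∧
      ∀ i, Function.Exact (D (i + 1)).vecMulLinear (D i).vecMulLinear := by
  obtain ⟨r, y, y1, y2, y3⟩ := hF _ hm
  obtain ⟨k', w, w1, w2, w3⟩ := syz F L L0 Ln hF (M := A) (· ∈ L)
    (fun k v u x a hx hu hv e => ⟨fun l => π (a l), fun l => hπ _, hG k v u x a hx hu hv e⟩) r y y1 y2
  let St := Σ n k : ℕ, {v : Fin k → Fin n → A // (∀ j l, v j l ∈ L) ∧ LQ F k v}
  have step : ∀ s : St, ∃ (k' : ℕ) (w : Fin k' → Fin s.2.1 → A), (∀ j l, w j l ∈ L) ∧ LQ F k' w ∧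
      ∀ t, t ∈ span A (Set.range w) ↔ ∑ l, t l • s.2.2.1 l = 0 := fun s =>
    syz F L L0 Ln hF (M := Fin s.1 → A) (fun u => ∀ c, u c ∈ L)
      (fun k v u x a hx hu hv e => ⟨fun l => π (a l), fun l => hπ _, by
        funext c
        have := congrFun e c
        simp only [Finset.sum_apply, Pi.smul_apply, smul_eq_mul] at this ⊢
        exact hG k (fun l => v l c) (u c) x a hx (hu c) (fun l => hv l c) this⟩)
      s.2.1 s.2.2.1 s.2.2.2.1 s.2.2.2.2
  choose nk nw h1 h2 h3 using step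
  let nx : St → St := fun s => ⟨s.2.1, nk s, nw s, h1 s, h2 s⟩
  let sq : ℕ → St := fun i => Nat.rec ⟨r, k', w, w1, w2⟩ (fun _ s => nx s) i
  have ex : ∀ {n k : ℕ} (v : Fin k → Fin n → A) (t : Fin n → A),
      t ∈ span A (Set.range v) ↔ t ∈ Set.range (Matrix.of v).vecMulLinear := by
    intro n k v t
    rw [mem_span_range_iff_exists_fun]
    refine exists_congr fun c => ?_
    rw [Matrix.vecMulLinear_apply, Matrix.vecMul_eq_sum]
    rfl
  refine ⟨fun i => (sq i).1, y, fun i => Matrix.of (sq i).2.2.1, y1, fun i => (sq i).2.2.2.1, y3,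
    fun t => ?_, fun i t => ?_⟩
  · rw [Fintype.linearCombination_apply]
    exact (w3 t).symm.trans (ex w t)
  · rw [Matrix.vecMulLinear_apply, Matrix.vecMul_eq_sum]
    exact (h3 (sq i) t).symm.trans (ex (nw (sq i)) t)

theorem uk {q1 q2 : S σ} (h1 : q1.IsHomogeneous 2) (h2 : q2.IsHomogeneous 2)
    (hz : ∀ a : σ → ℚ, eval a q1 = 0 → eval a q2 = 0 → a = 0) : UK (Ideal.span {q1, q2}) := by
  set J : Ideal (S σ) := Ideal.span {q1, q2} with hJ
  let mk := Ideal.Quotient.mk J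
  let F : Set (Ideal (S σ ⧸ J)) := {I | ∃ T : Set (S σ ⧸ J), T ⊆ piece J 1 ∧ Ideal.span T = I}
  have memq : ∀ (T : Set (S σ)) (f : S σ), mk f ∈ Ideal.span (mk '' T) ↔ f ∈ Ideal.span T ⊔ J := by
    intro T f
    rw [← Ideal.map_span, ← Ideal.mem_comap, Ideal.comap_map_of_surjective _ Ideal.Quotient.mk_surjective,
      ← RingHom.ker_eq_comap_bot, Ideal.mk_ker]
  have fam : ∀ (k : ℕ) (v : Fin k → S σ), (∀ j, (v j).IsHomogeneous 1) →
      ∃ (r : ℕ) (y : Fin r → S σ ⧸ J), (∀ j, y j ∈ (piece J 1 : Set _)) ∧ LQ F r y ∧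
        span (S σ ⧸ J) (Set.range y) = Ideal.span (mk '' Set.range v) := by
    intro k
    induction k with
    | zero => intro v _; exact ⟨0, Fin.elim0, fun j => j.elim0, trivial, by simp⟩
    | succ k ih =>
      intro v hv
      obtain ⟨r, y, y1, y2, y3⟩ := ih (Fin.tail v) (fun j => hv _)
      have ev : Set.range v = insert (v 0) (Set.range (Fin.tail v)) := by
        conv_lhs => rw [← Fin.cons_self_tail v]
        exact Fin.range_cons _ _
      have sp : Ideal.span (span ℚ (Set.range (Fin.tail v)) : Set (S σ)) =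
          Ideal.span (Set.range (Fin.tail v)) := span_span_of_tower ℚ (S σ) _
      by_cases h : v 0 ∈ span ℚ (Set.range (Fin.tail v))
      · refine ⟨r, y, y1, y2, ?_⟩
        rw [y3, ev, Set.image_insert_eq]
        refine (span_insert_eq_span ?_).symm
        exact (memq _ _).2 (Ideal.mem_sup_left (sp ▸ Ideal.subset_span h))
      · obtain ⟨T, t1, t2⟩ := colon h1 h2 hz _ (fun w hw =>
          (span_le (p := homogeneousSubmodule σ ℚ 1)).2 (by rintro _ ⟨j, rfl⟩; exact hv _) hw) _ (hv 0) h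
        refine ⟨r + 1, Fin.cons (mk (v 0)) y, fun j => Fin.cases ⟨_, hv 0, rfl⟩ y1 j,
          ⟨by simpa using y2, Ideal.span (mk '' T), ⟨_, ?_, rfl⟩, fun a => ?_⟩, ?_⟩
        · rintro _ ⟨t, ht, rfl⟩; exact ⟨t, t1 t ht, rfl⟩
        · obtain ⟨f, rfl⟩ := Ideal.Quotient.mk_surjective a
          rw [Fin.tail_cons, Fin.cons_zero, y3, smul_eq_mul, ← map_mul, memq, memq, ← t2, sp]
        · rw [Fin.range_cons, span_insert, y3, ev, Set.image_insert_eq]
          exact (span_insert _ _).symm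
  have hF : ∀ I ∈ F, ∃ (r : ℕ) (y : Fin r → S σ ⧸ J), (∀ j, y j ∈ (piece J 1 : Set _)) ∧ LQ F r y ∧
      span (S σ ⧸ J) (Set.range y) = I := by
    rintro _ ⟨T, hT, rfl⟩
    let V : Submodule ℚ (S σ) := homogeneousSubmodule σ ℚ 1 ⊓
      (span ℚ T).comap (Ideal.Quotient.mkₐ ℚ J).toLinearMap
    have fg : V.FG := (homogeneousSubmodule_fg σ ℚ 1).of_le inf_le_left
    obtain ⟨k, v, hv⟩ := fg_iff_exists_fin_generating_family.1 fg
    have vm : ∀ j, v j ∈ V := fun j => hv ▸ subset_span ⟨j, rfl⟩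
    obtain ⟨r, y, y1, y2, y3⟩ := fam k v (fun j => (vm j).1)
    refine ⟨r, y, y1, y2, y3.trans (le_antisymm ?_ ?_)⟩
    · rw [Ideal.span_le]
      rintro _ ⟨_, ⟨j, rfl⟩, rfl⟩
      exact span_le_restrictScalars ℚ _ T (vm j).2
    · rw [Ideal.span_le]
      intro t ht
      obtain ⟨p, hp, rfl⟩ := hT ht
      have : p ∈ V := ⟨hp, subset_span ht⟩
      rw [← hv] at this
      exact (memq _ _).2 (Ideal.mem_sup_left (span_le_restrictScalars ℚ _ _ this))
  choose out hout using Ideal.Quotient.mk_surjective (I := J)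
  intro T hT
  refine linres_of F (piece J 1) (zero_mem _) (fun a ha => neg_mem ha) hF (fun a => mk (hc 1 (out a)))
    (fun a => ⟨_, hc_hom _ _, rfl⟩) ?_ _ ⟨T, hT, rfl⟩
  rintro k v _ _ a ⟨x, hx, rfl⟩ ⟨u, hu, rfl⟩ hv e
  choose w w1 w2 using hv
  have w2' : ∀ l, mk (w l) = v l := w2
  have e1 : mk (x * u) = mk (∑ l, out (a l) * w l) := by
    rw [map_mul, map_sum]
    simp only [map_mul, w2', mk, hout]
    exact e
  have e2 := hc_span 2 2 (T := {q1, q2}) (by rintro _ (rfl | rfl) <;> assumption)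
    (Ideal.Quotient.eq.1 e1)
  rw [map_sub, hc_same (IsHomogeneous.mul hx hu), map_sum] at e2
  have e3 := Ideal.Quotient.eq.2 e2
  rw [map_mul, map_sum] at e3
  refine e3.trans (Finset.sum_congr rfl fun l _ => ?_)
  rw [hc_mul 2 _ (w1 l), if_pos (by norm_num), map_mul, ← w2']

end Pool.Agent.H.MP_49092c_al
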